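import Pool.Agent.H961BE.AP

/-!
Long arithmetic progressions of primes `p_{kn}` such that the numbers `p_{kn} + 2` are almost primes.
-/

set_option autoImplicit false

open Filter Topology

namespace Pool.Agent.Results.MP_be93de_nt.ProgressionsEveryN

/-- The `m`-th prime: `p 1 = 2`, `p 2 = 3`, `p 3 = 5`, and so on. -/
noncomputable def p (m : ℕ) : ℕ := Nat.nth Nat.Prime (m - 1)

/-- For every prime `l` there is an integer `x` such that `l` divides neither `x` nor any of the numbers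
`x + s`, `s ∈ S`: the set `{0} ∪ S` is admissible. -/
def Adm (S : Finset ℤ) : Prop :=
  ∀ l : ℕ, l.Prime → ∃ x : ℤ, ¬ (l : ℤ) ∣ x ∧ ∀ s ∈ S, ¬ (l : ℤ) ∣ x + s

/-- Each `q + s`, `s ∈ S`, is a positive integer with at most `R` prime factors, counted with
multiplicity, none of them smaller than `y`. -/
def AlmostPrimes (S : Finset ℤ) (R : ℕ) (y : ℝ) (q : ℕ) : Prop :=
  ∀ s ∈ S, 0 < (q : ℤ) + s ∧ ArithmeticFunction.cardFactors ((q : ℤ) + s).toNat ≤ R ∧
    ∀ l : ℕ, l.Prime → l ∣ ((q : ℤ) + s).toNat → y ≤ l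

/-- The set `S = {2}` of the problem is covered. -/
theorem adm_two : Adm {2} := by
  intro l hl
  by_cases h3 : l = 2 ∨ l = 3
  · refine ⟨-1, ?_, ?_⟩
    · rcases h3 with rfl | rfl <;> norm_num
    · intro a ha
      rw [Finset.mem_singleton] at ha
      subst ha
      rcases h3 with rfl | rfl <;> norm_num
  · push Not at h3
    have h5 : 4 ≤ l := by
      have := hl.two_le
      omega
    refine ⟨1, ?_, ?_⟩
    · intro hd
      have := Int.le_of_dvd one_pos hd
      omega
    · intro a ha hd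
      rw [Finset.mem_singleton] at ha
      subst ha
      have := Int.le_of_dvd (by norm_num) hd
      omega

/-- **Progressions of almost twin primes with index a multiple of `n`.** Let `n ≥ 1`, `r ≥ 0` and let
`S` be a finite set of integers with `{0} ∪ S` admissible, for instance `S = {2}`. There are `R`, `C`
and `η > 0` such that for every `L` there is `B` such that for all large `x` there are a progression
`a, a + d, …, a + (L - 1) d` in `[x, 2 x + C)` with `1 ≤ d ≤ (log x) ^ B` and numbers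
`0 = g 0, g 1, …, g r ≤ C` with the property: for every `t < L` the number `a + t d` is a prime
`p_{kn}` whose index is a multiple of `n`, the next `r` primes are `p_{kn+i} = a + t d + g i`, and for
`0 ≤ i ≤ r` every `p_{kn+i} + s`, `s ∈ S`, has at most `R` prime factors, all at least `x ^ η`. -/
theorem result (n r : ℕ) (hn : 1 ≤ n) (S : Finset ℤ) (hS : Adm S) :
    ∃ R C : ℕ, ∃ η : ℝ, 0 < η ∧ ∀ L : ℕ, ∃ B : ℕ, ∀ᶠ x : ℕ in atTop,
      ∃ (a d : ℕ) (g : ℕ → ℕ), 1 ≤ d ∧ (d : ℝ) ≤ Real.log x ^ B ∧ g 0 = 0 ∧ g r ≤ C ∧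
        ∀ t < L, x ≤ a + t * d ∧ a + t * d < 2 * x + C ∧
          ∃ k : ℕ, 1 ≤ k ∧ ∀ i ≤ r, p (k * n + i) = a + t * d + g i ∧
            AlmostPrimes S R ((x : ℝ) ^ η) (p (k * n + i)) := by
  obtain ⟨R, C, η, hη, h⟩ := Pool.Agent.H961BE.prog S hS n r hn
  refine ⟨R, C + 1, η, hη, ?_⟩
  intro L
  obtain ⟨B, X0, h1⟩ := h (L + 1)
  refine ⟨B, ?_⟩
  filter_upwards [eventually_ge_atTop X0] with x hx
  obtain ⟨a, d, w, h2, h3, h4, h5, h6, h7⟩ := h1 x hx
  have hmono : ∀ i ≤ r, w 0 ≤ w i := by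
    intro i hi
    obtain ⟨j, hj, h8⟩ := h7 0 (Nat.succ_pos _)
    have e1 := (h8 0 (Nat.zero_le _)).1
    have e2 := (h8 i hi).1
    have e3 : Nat.nth Nat.Prime (j * n + 0 - 1) ≤ Nat.nth Nat.Prime (j * n + i - 1) :=
      Nat.nth_monotone Nat.infinite_setOfPred_prime (by omega)
    rw [e1, e2] at e3
    omega
  have hw0 := Finset.mem_Icc.1 (h6 0 (Nat.zero_le _))
  refine ⟨a + w 0, d, fun i => w i - w 0, h4, h5, by simp, ?_, ?_⟩
  · have := (Finset.mem_Icc.1 (h6 r le_rfl)).2
    show w r - w 0 ≤ C + 1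
    omega
  · intro t ht
    have e1 : t * d ≤ (L + 1 - 1) * d := Nat.mul_le_mul_right d (by omega)
    refine ⟨by omega, by omega, ?_⟩
    obtain ⟨j, hj, h8⟩ := h7 t (by omega)
    refine ⟨j, hj, ?_⟩
    intro i hi
    obtain ⟨e2, e3⟩ := h8 i hi
    have e4 := hmono i hi
    have e5 : a + t * d + w i = a + w 0 + t * d + (w i - w 0) := by omega
    have e6 : p (j * n + i) = a + t * d + w i := e2
    refine ⟨e6.trans e5, ?_⟩
    rw [e6]
    exact e3

end Pool.Agent.Results.MP_be93de_nt.ProgressionsEveryN
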